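import Pool.Agent.Helper992.Bc
import Pool.Agent.Helper992.Bc2

set_option autoImplicit false

namespace Pool.Agent.Results.MP_602e73_co.FourDistances

/-- `C` is `(D1, D2)`-admissible: distinct words are at Hamming distance `D1`, `D2`, `d - D1` or
`d - D2`. -/
def Admissible (d D1 D2 : ℕ) (C : Finset (Fin d → Bool)) : Prop :=
  ∀ x ∈ C, ∀ y ∈ C, x ≠ y → hammingDist x y = D1 ∨ hammingDist x y = D2 ∨
    hammingDist x y = d - D1 ∨ hammingDist x y = d - D2

/-- The sizes of the (nonempty) binary codes of length `d` that are `(D1, D2)`-admissible for some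
`D1, D2 ∈ {1, …, d - 1}`; for `d ≥ 2`, `N(d)` is the greatest element of this set. -/
def sizes (d : ℕ) : Set ℕ :=
  {m | ∃ D1 D2 : ℕ, 1 ≤ D1 ∧ D1 < d ∧ 1 ≤ D2 ∧ D2 < d ∧
    ∃ C : Finset (Fin d → Bool), C.Nonempty ∧ Admissible d D1 D2 C ∧ C.card = m}

theorem dist_eq {d : ℕ} (x y : Fin d → Bool) :
    hammingDist x y + 2 * ((Finset.univ.filter (fun i => x i = true)) ∩
      (Finset.univ.filter (fun i => y i = true))).card
      = (Finset.univ.filter (fun i => x i = true)).card
        + (Finset.univ.filter (fun i => y i = true)).card := by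
  rw [← Pool.Agent.Helper992.Bc.card_symmDiff]
  congr 1
  unfold hammingDist
  congr 1
  ext i
  simp only [Finset.mem_filter, Finset.mem_univ, true_and, Finset.mem_symmDiff]
  cases x i <;> cases y i <;> simp

theorem dist_le {d : ℕ} (x y : Fin (d + 1) → Bool) (hx : x 0 = false) (hy : y 0 = false) :
    hammingDist x y ≤ d := by
  unfold hammingDist
  have h : Finset.univ.filter (fun i => x i ≠ y i) ⊆ Finset.univ.erase 0 := by
    intro i hi
    rw [Finset.mem_filter] at hi
    rw [Finset.mem_erase]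
    refine ⟨?_, Finset.mem_univ _⟩
    rintro rfl
    exact hi.2 (by rw [hx, hy])
  refine (Finset.card_le_card h).trans ?_
  rw [Finset.card_erase_of_mem (Finset.mem_univ _), Finset.card_univ, Fintype.card_fin]
  simp

theorem mem_small (e D2 m : ℕ) (h2 : 1 ≤ D2) (h2' : D2 < e + 1) (he : 1 ≤ e) (hm : 0 < m)
    (hall : ∀ t, 0 < t → t ≤ e → t = 1 ∨ t = D2 ∨ t = e + 1 - 1 ∨ t = e + 1 - D2)
    (hcard : (Finset.univ.filter (fun x : Fin (e + 1) → Bool => x 0 = false)).card = m) :
    m ∈ sizes (e + 1) := by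
  refine ⟨1, D2, le_rfl, by omega, h2, h2', Finset.univ.filter (fun x => x 0 = false),
    Finset.card_pos.mp (by rw [hcard]; exact hm), ?_, hcard⟩
  intro x hx y hy hxy
  rw [Finset.mem_filter] at hx hy
  exact hall _ (hammingDist_pos.mpr hxy) (dist_le x y hx.2 hy.2)

theorem mem_even (e D1 D2 m : ℕ) (h1 : 1 ≤ D1) (h1' : D1 < e + 1) (h2 : 1 ≤ D2)
    (h2' : D2 < e + 1) (hm : 0 < m)
    (hall : ∀ t, 0 < t → t ≤ e → t % 2 = 0 →
      t = D1 ∨ t = D2 ∨ t = e + 1 - D1 ∨ t = e + 1 - D2)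
    (hcard : (Finset.univ.filter (fun x : Fin (e + 1) → Bool => x 0 = false ∧
        (Finset.univ.filter (fun i => x i = true)).card % 2 = 0)).card = m) :
    m ∈ sizes (e + 1) := by
  refine ⟨D1, D2, h1, h1', h2, h2', Finset.univ.filter (fun x => x 0 = false ∧
        (Finset.univ.filter (fun i => x i = true)).card % 2 = 0),
    Finset.card_pos.mp (by rw [hcard]; exact hm), ?_, hcard⟩
  intro x hx y hy hxy
  rw [Finset.mem_filter] at hx hy
  have h3 := dist_eq x y
  have h4 := hx.2.2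
  have h5 := hy.2.2
  exact hall _ (hammingDist_pos.mpr hxy) (dist_le x y hx.2.1 hy.2.1) (by omega)

theorem up1 (d m : ℕ) (hm : m ∈ sizes d) : m ≤ 1 + d.choose 2 + d.choose 4 := by
  obtain ⟨D1, D2, h1, h1', h2, h2', C, _, hC, rfl⟩ := hm
  exact Pool.Agent.Helper992.Bc.bound d D1 D2 h1 h1' h2 h2' C hC

theorem up2 (d m : ℕ) (hd : 6 ≤ d) (hm : m ∈ sizes d) : m ≤ 2 ^ (d - 2) := by
  obtain ⟨D1, D2, h1, h1', h2, h2', C, _, hC, rfl⟩ := hm
  exact Pool.Agent.Helper992.Bc2.bound2 d D1 D2 hd h1 h1' h2 h2' C hC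

/-- `N(d) ≤ 1 + C(d, 2) + C(d, 4)` for all `d ≥ 2`; `N(d) ≤ 2 ^ (d - 2)` for all `d ≥ 6`; and
`N(2) = 2`, `N(3) = 4`, `N(4) = 8`, `N(5) = 16`, `N(6) = 16`, `N(8) = 64`, `N(10) = 256`. -/
theorem result :
    (∀ d : ℕ, ∀ m ∈ sizes d, m ≤ 1 + d.choose 2 + d.choose 4) ∧
    (∀ d : ℕ, 6 ≤ d → ∀ m ∈ sizes d, m ≤ 2 ^ (d - 2)) ∧
    IsGreatest (sizes 2) 2 ∧ IsGreatest (sizes 3) 4 ∧ IsGreatest (sizes 4) 8 ∧
    IsGreatest (sizes 5) 16 ∧ IsGreatest (sizes 6) 16 ∧ IsGreatest (sizes 8) 64 ∧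
    IsGreatest (sizes 10) 256 := by
  refine ⟨fun d m hm => up1 d m hm, fun d hd m hm => up2 d m hd hm, ⟨?_, ?_⟩, ⟨?_, ?_⟩, ⟨?_, ?_⟩,
    ⟨?_, ?_⟩, ⟨?_, ?_⟩, ⟨?_, ?_⟩, ⟨?_, ?_⟩⟩
  · exact mem_small 1 1 2 (by norm_num) (by norm_num) (by norm_num) (by norm_num)
      (by omega) (by decide)
  · intro m hm
    have := up1 2 m hm
    simpa [Nat.choose] using this
  · exact mem_small 2 1 4 (by norm_num) (by norm_num) (by norm_num) (by norm_num)
      (by omega) (by decide)
  · intro m hm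
    have := up1 3 m hm
    simpa [Nat.choose] using this
  · exact mem_small 3 2 8 (by norm_num) (by norm_num) (by norm_num) (by norm_num)
      (by omega) (by decide)
  · intro m hm
    have := up1 4 m hm
    simpa [Nat.choose] using this
  · exact mem_small 4 2 16 (by norm_num) (by norm_num) (by norm_num) (by norm_num)
      (by omega) (by decide)
  · intro m hm
    have := up1 5 m hm
    simpa [Nat.choose] using this
  · exact mem_even 5 2 4 16 (by norm_num) (by norm_num) (by norm_num) (by norm_num) (by norm_num)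
      (by omega) (by decide +kernel)
  · intro m hm
    have := up2 6 m (by norm_num) hm
    simpa using this
  · exact mem_even 7 2 4 64 (by norm_num) (by norm_num) (by norm_num) (by norm_num) (by norm_num)
      (by omega) (by decide +kernel)
  · intro m hm
    have := up2 8 m (by norm_num) hm
    simpa using this
  · exact mem_even 9 2 4 256 (by norm_num) (by norm_num) (by norm_num) (by norm_num) (by norm_num)
      (by omega) (by decide +kernel)
  · intro m hm
    have := up2 10 m (by norm_num) hm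
    simpa using this

end Pool.Agent.Results.MP_602e73_co.FourDistances
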